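import Pool.Agent.Y982.PW.MTP
import Pool.Agent.Y982.PW.Seq

set_option autoImplicit false

open MeasureTheory Filter
open scoped ENNReal Topology

namespace Pool.Agent.Results.MP_868dd6_pr.ArbitraryDegreeTail

open Pool.Agent.H424R3.Pow (RandomRootedGraph Recurrent power)
open Pool.Agent.Y982.PW
open Pool.Agent.Y982.PW.Seq (q τ st sp)

/-! ### The splitting numbers -/

lemma N_eq (m : ℕ → ℕ) (h : ℕ) : (N (sp m) h : ℝ) = (st m h).1 := by
  induction h with
  | zero => simp [N, st]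
  | succ h ih => rw [N_succ, ih, Seq.st1_succ]

lemma R_eq (m : ℕ → ℕ) (h : ℕ) : R (sp m) m h = (st m h).2 := by
  induction h with
  | zero => simp [R, st]
  | succ h ih => rw [R_succ, ih, Seq.st2_succ, N_eq]

lemma N_le (m : ℕ → ℕ) (h : ℕ) : N (sp m) h ≤ 2 ^ h := by
  induction h with
  | zero => simp [N]
  | succ h ih =>
    show N (sp m) h * (sp m h + 1) ≤ 2 ^ (h + 1)
    rw [pow_succ]
    have := Seq.sp_le m h
    exact Nat.mul_le_mul ih (by omega)

lemma PN_bound (m : ℕ → ℕ) (hmono : Monotone m) (H : ℕ) :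
    ∑ h ∈ Finset.range H, 1 / PN (sp m) m h ≤ 4 := by
  refine le_trans (Finset.sum_le_sum (fun h _ => ?_)) (Seq.sum_bound m H)
  have h1 := Seq.st1_ge m (h + 1)
  have h2 : (0 : ℝ) ≤ m h := Nat.cast_nonneg _
  apply one_div_le_one_div_of_le (by positivity)
  unfold PN
  rw [N_succ (h + 1), N_eq]
  have h3 : (m h : ℝ) ≤ m (h + 1) := by exact_mod_cast hmono (Nat.le_succ h)
  have h4 : (0 : ℝ) ≤ sp m (h + 1) := Nat.cast_nonneg _
  have h5 : (st m (h + 1)).1 ≤ (st m (h + 1)).1 * ((sp m (h + 1) : ℝ) + 1) := by nlinarith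
  have h6 : 0 ≤ (st m (h + 1)).1 * ((sp m (h + 1) : ℝ) + 1) := by positivity
  have h7 : (st m (h + 1)).1 * ((m h : ℝ) + 1)
      ≤ (st m (h + 1)).1 * ((sp m (h + 1) : ℝ) + 1) * ((m h : ℝ) + 1) :=
    mul_le_mul_of_nonneg_right h5 (by positivity)
  exact mul_le_mul h7 (by linarith) (by positivity) (by positivity)

lemma q_ge (m : ℕ → ℕ) (hmle : ∀ h, m h ≤ h) (h : ℕ) :
    ((N (sp m) h : ℝ≥0∞) + N (sp m) (h + 1) * ((m h : ℝ≥0∞) + 1)) * ((2 : ℝ≥0∞)⁻¹) ^ (2 * h)
      ≤ q h := by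
  have two_inv : (2 : ℝ≥0∞)⁻¹ = ENNReal.ofReal (1 / 2) := by
    rw [one_div, ENNReal.ofReal_inv_of_pos (by norm_num)]
    norm_num
  have e1 : ((N (sp m) h : ℝ≥0∞) + N (sp m) (h + 1) * ((m h : ℝ≥0∞) + 1))
      = ENNReal.ofReal (((N (sp m) h + N (sp m) (h + 1) * (m h + 1) : ℕ) : ℝ)) := by
    rw [ENNReal.ofReal_natCast]
    push_cast
    ring
  rw [e1, two_inv, ← ENNReal.ofReal_pow (by norm_num), ← ENNReal.ofReal_mul (by positivity)]
  unfold q
  apply ENNReal.ofReal_le_ofReal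
  have h1 : N (sp m) h + N (sp m) (h + 1) * (m h + 1) ≤ (2 * h + 4) * 2 ^ h := by
    calc N (sp m) h + N (sp m) (h + 1) * (m h + 1)
        ≤ 2 ^ h + 2 ^ (h + 1) * (h + 1) :=
          Nat.add_le_add (N_le m h) (Nat.mul_le_mul (N_le m (h + 1)) (by have := hmle h; omega))
      _ = (2 * h + 3) * 2 ^ h := by ring
      _ ≤ (2 * h + 4) * 2 ^ h := Nat.mul_le_mul_right _ (by omega)
  have h2 : ((N (sp m) h + N (sp m) (h + 1) * (m h + 1) : ℕ) : ℝ) ≤ (2 * (h : ℝ) + 4) * 2 ^ h := by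
    exact_mod_cast h1
  have h3 : (0 : ℝ) ≤ (1 / 2) ^ (2 * h) := by positivity
  calc ((N (sp m) h + N (sp m) (h + 1) * (m h + 1) : ℕ) : ℝ) * (1 / 2) ^ (2 * h)
      ≤ (2 * (h : ℝ) + 4) * 2 ^ h * (1 / 2) ^ (2 * h) := mul_le_mul_of_nonneg_right h2 h3
    _ = (2 * (h : ℝ) + 4) * (1 / 2) ^ h := by
        rw [mul_assoc]
        congr 1
        rw [two_mul, pow_add, ← mul_assoc, ← mul_pow]
        norm_num

/-! ### The law of the root -/

/-- Total mass of the weights. -/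
noncomputable def Z (r m : ℕ → ℕ) : ℝ≥0∞ := ∑' w : Om r m, ((2 : ℝ≥0∞)⁻¹) ^ (2 * w.1)

lemma Z_ge_one (r m : ℕ → ℕ) : 1 ≤ Z r m := by
  have h1 : ((2 : ℝ≥0∞)⁻¹) ^ (2 * (⟨0, Sum.inl (z r 0)⟩ : Om r m).1) ≤ Z r m :=
    ENNReal.le_tsum (f := fun w : Om r m => ((2 : ℝ≥0∞)⁻¹) ^ (2 * w.1)) _
  simpa using h1

lemma sum_levels (m : ℕ → ℕ) (hmle : ∀ h, m h ≤ h) (g : Om (sp m) m → ℝ≥0∞) (A : ℕ → Prop)
    [DecidablePred A] (h1 : ∀ w, g w ≤ ((2 : ℝ≥0∞)⁻¹) ^ (2 * w.1)) (h2 : ∀ w, ¬ A w.1 → g w = 0) :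
    ∑' w, g w ≤ ∑' h : ℕ, (if A h then q h else 0) := by
  rw [ENNReal.tsum_sigma']
  apply ENNReal.tsum_le_tsum
  intro h
  split_ifs with hA
  · exact (level_sum h (fun t => g ⟨h, t⟩) _ (fun t => h1 ⟨h, t⟩)).trans (q_ge m hmle h)
  · rw [ENNReal.tsum_eq_zero.2 (fun t => h2 ⟨h, t⟩ hA)]

lemma Z_ne_top (m : ℕ → ℕ) (hmle : ∀ h, m h ≤ h) : Z (sp m) m ≠ ⊤ := by
  have h1 := sum_levels m hmle (fun w => ((2 : ℝ≥0∞)⁻¹) ^ (2 * w.1)) (fun _ => True)
    (fun w => le_refl _) (fun w hw => absurd trivial hw)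
  simp only [if_true] at h1
  exact ne_top_of_le_ne_top Seq.q_sum h1

variable (r m : ℕ → ℕ)

/-- The law of the root. -/
noncomputable def law : @Measure (Om r m) ⊤ :=
  (Z r m)⁻¹ • @Measure.sum (Om r m) (Om r m) ⊤
    (fun w => ((2 : ℝ≥0∞)⁻¹) ^ (2 * w.1) • @Measure.dirac (Om r m) ⊤ w)

lemma lintegral_law (g : Om r m → ℝ≥0∞) :
    @lintegral (Om r m) ⊤ (law r m) g
      = (Z r m)⁻¹ * ∑' w : Om r m, ((2 : ℝ≥0∞)⁻¹) ^ (2 * w.1) * g w := by
  unfold law
  rw [lintegral_smul_measure, lintegral_sum_measure]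
  simp only [smul_eq_mul]
  congr 1
  apply tsum_congr
  intro w
  rw [lintegral_smul_measure, @lintegral_dirac' (Om r m) ⊤ w g (by exact measurable_from_top)]
  rfl

lemma law_prob (hZ : Z r m ≠ ⊤) : @IsProbabilityMeasure (Om r m) ⊤ (law r m) := by
  refine @IsProbabilityMeasure.mk (Om r m) ⊤ (law r m) ?_
  rw [← @lintegral_one (Om r m) ⊤ (law r m), lintegral_law]
  simp only [mul_one]
  exact ENNReal.inv_mul_cancel (fun h => by have := Z_ge_one r m; rw [h] at this; simp at this) hZ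

lemma law_le_one (hZ : Z r m ≠ ⊤) (s : Set (Om r m)) : law r m s ≤ 1 := by
  letI : MeasurableSpace (Om r m) := ⊤
  haveI : IsProbabilityMeasure (law r m) := law_prob r m hZ
  exact prob_le_one

lemma law_le (s : Set (Om r m)) : law r m s
    ≤ ∑' w : Om r m, ((2 : ℝ≥0∞)⁻¹) ^ (2 * w.1) * s.indicator (fun _ => 1) w := by
  have h1 : law r m s = (Z r m)⁻¹ *
      ∑' w : Om r m, ((2 : ℝ≥0∞)⁻¹) ^ (2 * w.1) * s.indicator (fun _ => 1) w := by
    rw [← lintegral_law]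
    exact (@lintegral_indicator_one (Om r m) ⊤ (law r m) s trivial).symm
  rw [h1]
  have h2 : (Z r m)⁻¹ ≤ 1 := ENNReal.inv_le_one.2 (Z_ge_one r m)
  calc _ ≤ 1 * ∑' w : Om r m, ((2 : ℝ≥0∞)⁻¹) ^ (2 * w.1) * s.indicator (fun _ => 1) w := by
        gcongr
    _ = _ := one_mul _

/-- The graph with a random root. -/
noncomputable def X : @RandomRootedGraph (W r m) (Om r m) ⊤ (law r m) :=
  @RandomRootedGraph.mk (W r m) (Om r m) ⊤ (law r m) (fun _ => can r m) (fun w => vtx w 0)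
    (fun _ _ => trivial) (fun _ => trivial) (fun _ => can_connected) (fun _ x => can_finite x)

lemma X_unimodular : @RandomRootedGraph.Unimodular (W r m) (Om r m) ⊤ (law r m) (X r m) := by
  intro f _ hf
  show @lintegral (Om r m) ⊤ (law r m) (fun w => ∑' x, f (can r m) (vtx w 0) x)
    = @lintegral (Om r m) ⊤ (law r m) (fun w => ∑' x, f (can r m) x (vtx w 0))
  rw [lintegral_law, lintegral_law]
  congr 1
  exact mtp (f (can r m)) (fun K x y => hf (can r m) (can r m) (flipIso K) x y)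

/-- The degree of the root. -/
noncomputable def dg (w : Om r m) : ℕ := ((can r m).neighborSet (vtx w 0)).ncard

lemma tail (hmono : Monotone m) (hmle : ∀ h, m h ≤ h) (φ : ℕ → ℝ)
    (hφ : ∀ n h : ℕ, 7 ≤ n → n ≤ 6 * (m h + 1) → τ h ≤ ENNReal.ofReal (φ n)) (n : ℕ)
    (hn : 7 ≤ n) : law (sp m) m {w | n ≤ dg (sp m) m w} ≤ ENNReal.ofReal (φ n) := by
  classical
  refine (law_le _ _ _).trans ?_
  have h1 := sum_levels m hmle (fun w => ((2 : ℝ≥0∞)⁻¹) ^ (2 * w.1) *
    ({w : Om (sp m) m | n ≤ dg (sp m) m w}).indicator (fun _ => 1) w) (fun h => n ≤ 6 * (m h + 1))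
    (fun w => by
      calc _ ≤ ((2 : ℝ≥0∞)⁻¹) ^ (2 * w.1) * 1 := by
            gcongr
            exact Set.indicator_le_self' (fun _ _ => bot_le) _
        _ = _ := mul_one _)
    (fun w hw => by
      rw [Set.indicator_of_notMem, mul_zero]
      intro hmem
      exact hw (le_trans hmem (deg_le (Seq.sp_le m) hmono w.1 w.2)))
  refine h1.trans ?_
  by_cases hex : ∃ h, n ≤ 6 * (m h + 1)
  · let h0 := Nat.find hex
    have hh0 : n ≤ 6 * (m h0 + 1) := Nat.find_spec hex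
    refine le_trans ?_ (hφ n h0 hn hh0)
    rw [← Summable.sum_add_tsum_nat_add' (k := h0) ENNReal.summable, Finset.sum_eq_zero, zero_add]
    · unfold τ
      apply ENNReal.tsum_le_tsum
      intro h
      split_ifs
      · exact le_refl _
      · exact bot_le
    · intro h hh
      rw [Finset.mem_range] at hh
      rw [if_neg (Nat.find_min hex hh)]
  · push Not at hex
    have h2 : ∑' h : ℕ, (if n ≤ 6 * (m h + 1) then q h else 0) = 0 := by
      rw [ENNReal.tsum_eq_zero]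
      intro h
      rw [if_neg (not_le.2 (hex h))]
    rw [h2]
    exact bot_le

/-- For every positive function `φ`, however fast it decays, there is a recurrent unimodular random
rooted graph whose root degree satisfies `P(deg ≥ n) ≤ φ n` for all `n ≥ 7` (and has an exponential
tail), all of whose powers of order at least two are almost surely transient. -/
theorem result (φ : ℕ → ℝ) (hφ : ∀ n, 0 < φ n) :
    ∃ (V : Type) (_ : Countable V) (Ω : Type) (_ : MeasurableSpace Ω)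
    (P : Measure Ω) (_ : IsProbabilityMeasure P) (X : RandomRootedGraph V P),
    X.Unimodular ∧ X.ExpTail ∧
    (∀ n : ℕ, 7 ≤ n → P {ω | n ≤ ((X.graph ω).neighborSet (X.root ω)).ncard}
      ≤ ENNReal.ofReal (φ n)) ∧
    (∀ᵐ ω ∂P, Recurrent (X.graph ω) (X.root ω)) ∧
    ∀ k : ℕ, 2 ≤ k → ∀ᵐ ω ∂P, ¬ Recurrent (power (X.graph ω) k) (X.root ω) := by
  obtain ⟨m, hmono, htend, hmle, hm⟩ := Seq.exists_m (fun n => min (φ n) (Real.exp (-(n : ℝ))))
    (fun n => lt_min (hφ n) (Real.exp_pos _))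
  have m00 : m 0 = 0 := Nat.le_zero.1 (hmle 0)
  have h00 : sp m 0 = 0 := by
    unfold sp
    rw [if_pos]
    simp [st, m00]
  have hR : Tendsto (R (sp m) m) atTop atTop := by
    have h1 : R (sp m) m = fun h => (st m h).2 := funext (R_eq m)
    rw [h1]
    exact Seq.st2_tendsto m htend hmle
  have hprob := law_prob (sp m) m (Z_ne_top m hmle)
  refine ⟨W (sp m) m, inferInstance, Om (sp m) m, ⊤, law (sp m) m, hprob,
    X (sp m) m, X_unimodular _ _, ?_, ?_, Eventually.of_forall (fun w => can_recurrent hR _),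
    fun _ hk => Eventually.of_forall
      (fun w => power_transient (PN_bound m hmono) h00 m00 hk _)⟩
  · refine ⟨Real.exp 7, 1, Real.exp_pos _, one_pos, fun n _ => ?_⟩
    rw [one_mul, ← Real.exp_add]
    by_cases hn : 7 ≤ n
    · refine (tail m hmono hmle _ hm n hn).trans (ENNReal.ofReal_le_ofReal ?_)
      refine (min_le_right _ _).trans (Real.exp_le_exp.2 ?_)
      linarith
    · refine (law_le_one (sp m) m (Z_ne_top m hmle) _).trans ?_
      rw [← ENNReal.ofReal_one]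
      apply ENNReal.ofReal_le_ofReal
      apply Real.one_le_exp
      have : (n : ℝ) ≤ 7 := by exact_mod_cast (by omega : n ≤ 7)
      linarith
  · intro n hn
    exact (tail m hmono hmle _ hm n hn).trans (ENNReal.ofReal_le_ofReal (min_le_left _ _))

end Pool.Agent.Results.MP_868dd6_pr.ArbitraryDegreeTail
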